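import Pool.Agent.H458.AR.Coh

/-!
# Project AR (helper458), part CPL: completions of `ℚ` at the primes of `𝓞 ℚ` and the fields `ℚ_p`
-/

set_option autoImplicit false
set_option linter.all false

open IsDedekindDomain NumberField Polynomial
open scoped Classical

namespace Pool.Agent.H596.AR458

open Pool.Agent.N922.PQ
open Pool.Agent.N874.PM (PLoc)
open Pool.Agent.H458.AR

/-- The local condition can be transferred by an embedding. -/
theorem ploc_map {M F F' : Type} [Field M] [Field F] [Field F'] [Algebra M F] [Algebra M F']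
    (φ : F →ₐ[M] F') {A B : M} {h : M[X]} (H : PLoc F A B h) : PLoc F' A B h := by
  have hφ : ∀ x : M, φ (algebraMap M F x) = algebraMap M F' x := φ.commutes
  have hc : (φ : F →+* F').comp (algebraMap M F) = algebraMap M F' := RingHom.ext hφ
  have hm : ∀ r : M[X], (r.map (algebraMap M F)).map (φ : F →+* F') = r.map (algebraMap M F') := by
    intro r
    rw [Polynomial.map_map, hc]
  have hcub : (X ^ 3 + C (algebraMap M F A) * X + C (algebraMap M F B) : F[X]).map (φ : F →+* F') =
      X ^ 3 + C (algebraMap M F' A) * X + C (algebraMap M F' B) := by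
    simp [hφ]
  rcases H with ⟨g, hg⟩ | ⟨x, y, hy, hxy, g, hg⟩
  · left
    refine ⟨g.map (φ : F →+* F'), ?_⟩
    have h1 := Polynomial.map_dvd (φ : F →+* F') hg
    rw [hcub, Polynomial.map_sub, hm, Polynomial.map_pow] at h1
    exact h1
  · right
    refine ⟨φ x, φ y, fun h => hy (by simpa using h), ?_, g.map (φ : F →+* F'), ?_⟩
    · have h2 := congrArg φ hxy
      simpa [hφ] using h2
    · have h1 := Polynomial.map_dvd (φ : F →+* F') hg
      rw [hcub, Polynomial.map_sub, Polynomial.map_mul, hm, Polynomial.map_pow, Polynomial.map_sub,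
        Polynomial.map_C, Polynomial.map_X] at h1
      exact h1

theorem ploc_iff_pl (F : Type) [Field F] [Algebra ℚ F] (A B : ℤ) (h : ℚ[X]) :
    PLoc F (A : ℚ) (B : ℚ) h ↔ PL F A B (h.map (algebraMap ℚ F)) := by
  have hA : algebraMap ℚ F (A : ℚ) = (A : F) := by simp
  have hB : algebraMap ℚ F (B : ℚ) = (B : F) := by simp
  unfold PLoc PL ff
  rw [hA, hB]

theorem cpl : Pool.Agent.H458.AR.S_CPL := by
  intro A B h
  constructor
  · intro H p hp
    have h1 := H ((Rat.HeightOneSpectrum.primesEquiv (R := 𝓞 ℚ)).symm ⟨p, hp.out⟩)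
    exact (ploc_iff_pl ℚ_[p] A B h).1
      (ploc_map ((Padic.adicCompletionEquiv (𝓞 ℚ) ⟨p, hp.out⟩).symm.toAlgEquiv : _ →ₐ[ℚ] ℚ_[p]) h1)
  · intro H w
    haveI : Fact (Nat.Prime (Rat.HeightOneSpectrum.primesEquiv w : Nat.Primes)) :=
      ⟨(Rat.HeightOneSpectrum.primesEquiv w).2⟩
    have h1 := (ploc_iff_pl ℚ_[(Rat.HeightOneSpectrum.primesEquiv w : Nat.Primes)] A B h).2
      (H (Rat.HeightOneSpectrum.primesEquiv w : Nat.Primes))
    exact ploc_map ((Rat.HeightOneSpectrum.adicCompletion.padicEquiv w).symm.toAlgEquiv :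
      _ →ₐ[ℚ] w.adicCompletion ℚ) h1

end Pool.Agent.H596.AR458
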