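import Pool.Agent.H458.AR.Fld

/-!
# Project AR (helper458), part NQ: the norm of a Selmer class is a square
-/

set_option autoImplicit false
set_option linter.all false

open IsDedekindDomain NumberField Matrix Polynomial
open scoped Classical

namespace Pool.Agent.H596.AR458

open Pool.Agent.N922.PQ
open Pool.Agent.H458.AR

/-- A rational number which is a square in all the completions is a square. -/
theorem isSquare_of_local (q : ℚ) (hr : IsSquare ((q : ℚ) : ℝ))
    (hp : ∀ (p : ℕ) [Fact p.Prime], IsSquare ((q : ℚ) : ℚ_[p])) : IsSquare q := by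
  have h0 : 0 ≤ q := by
    obtain ⟨y, hy⟩ := hr
    have : (0 : ℝ) ≤ (q : ℝ) := by rw [hy]; exact mul_self_nonneg y
    exact_mod_cast this
  rcases eq_or_ne q 0 with rfl | hq
  · exact ⟨0, by simp⟩
  have hqp : 0 < q := lt_of_le_of_ne h0 (Ne.symm hq)
  have hval : ∀ (p : ℕ) [Fact p.Prime], Even (padicValRat p q) := by
    intro p hpf
    obtain ⟨z, hz⟩ := hp p
    have hz0 : z ≠ 0 := by
      rintro rfl
      rw [mul_zero] at hz
      exact hq (by exact_mod_cast hz)
    have h1 := congrArg Padic.valuation hz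
    rw [Padic.valuation_ratCast, Padic.valuation_mul hz0 hz0] at h1
    exact ⟨_, h1⟩
  -- the numerator times the denominator
  have hnum : 0 < q.num := Rat.num_pos.2 hqp
  set n : ℕ := q.num.natAbs * q.den with hn
  have hn0 : n ≠ 0 := mul_ne_zero (by omega) q.den_nz
  obtain ⟨a, b, ha, hb, hab, hsf⟩ := Nat.sq_mul_squarefree_of_pos (Nat.pos_of_ne_zero hn0)
  have ha1 : a = 1 := by
    by_contra hne
    obtain ⟨p, hpp, hpa⟩ := Nat.exists_prime_and_dvd hne
    haveI : Fact p.Prime := ⟨hpp⟩
    have h1 : padicValNat p a = 1 := by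
      have h2 : 1 ≤ padicValNat p a := one_le_padicValNat_of_dvd ha.ne' hpa
      have h3 : ¬ 2 ≤ padicValNat p a := by
        intro h
        have : p ^ 2 ∣ a := (padicValNat_dvd_iff_le ha.ne').2 h
        rw [sq] at this
        exact hpp.one_lt.ne' (Nat.isUnit_iff.1 (hsf p this))
      omega
    have h4 : padicValNat p n = 2 * padicValNat p b + 1 := by
      rw [← hab, padicValNat.mul (pow_ne_zero _ hb.ne') ha.ne', padicValNat.pow, h1]
    have h5 : padicValNat p n = padicValNat p q.num.natAbs + padicValNat p q.den := by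
      rw [hn, padicValNat.mul (by omega) q.den_nz]
    have h6 : padicValRat p q = (padicValNat p q.num.natAbs : ℤ) - padicValNat p q.den := by
      rw [padicValRat, padicValInt]
    have h7 := hval p
    rw [h6] at h7
    rw [Int.even_iff] at h7
    omega
  rw [ha1, mul_one] at hab
  refine ⟨(b : ℚ) / q.den, ?_⟩
  have hd : (q.den : ℚ) ≠ 0 := by exact_mod_cast q.den_nz
  have h8 : (q.num.natAbs : ℚ) = (q.num : ℚ) := by
    rw [← Int.cast_natCast, Int.natAbs_of_nonneg hnum.le]
  have h9 : (b : ℚ) ^ 2 = q.num * q.den := by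
    rw [← h8]
    exact_mod_cast hab.trans hn
  have h10 : q * q.den = q.num := Rat.mul_den_eq_num q
  field_simp
  rw [h9, ← h10]
  ring

section norm

variable {L : Type} [Field L] [NumberField L] {A B : ℤ} {ϑ : L}

/-- the matrix of the multiplication by `ϑ` -/
noncomputable def MM (h : IsCub A B ϑ) : Matrix (Fin 3) (Fin 3) ℚ := Algebra.leftMulMatrix h.basis ϑ

theorem aeval_MM (h : IsCub A B ϑ) (p : ℚ[X]) :
    aeval (MM h) p = Algebra.leftMulMatrix h.basis (aeval ϑ p) := by
  rw [MM, aeval_algHom_apply]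

theorem charpoly_MM (h : IsCub A B ϑ) : (MM h).charpoly = ff ℚ A B := by
  have h1 := Matrix.aeval_self_charpoly (MM h)
  rw [aeval_MM] at h1
  have h2 : aeval ϑ (MM h).charpoly = 0 := by
    apply Algebra.leftMulMatrix_injective h.basis
    rw [h1, map_zero]
  have h3 : ff ℚ A B ∣ (MM h).charpoly := by
    rw [← h.minpoly_eq]
    exact minpoly.dvd _ _ h2
  refine Polynomial.eq_of_monic_of_dvd_of_natDegree_le (ff_monic ℚ A B) (Matrix.charpoly_monic _) h3 ?_
  rw [Matrix.charpoly_natDegree_eq_dim, ff_deg]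
  simp

/-- The norm is a square in `F`. -/
theorem sq_of_PL (h : IsCub A B ϑ) (F : Type) [Field F] [Algebra ℚ F] (p : ℚ[X])
    (H : PL F A B (p.map (algebraMap ℚ F))) :
    IsSquare (algebraMap ℚ F (Algebra.norm ℚ (aeval ϑ p))) := by
  set φ := algebraMap ℚ F with hφ
  set M := (MM h).map φ with hM
  have hae : ∀ r : ℚ[X], (aeval (MM h) r).map φ = aeval M (r.map φ) := by
    intro r
    have := Polynomial.map_aeval_eq_aeval_map (R := ℚ) (S := Matrix (Fin 3) (Fin 3) ℚ) (T := F)
      (U := Matrix (Fin 3) (Fin 3) F) (φ := φ) (ψ := φ.mapMatrix) (by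
        ext x i j
        simp [Matrix.algebraMap_matrix_apply, apply_ite φ]) r (MM h)
    exact this
  have hdet : φ (Algebra.norm ℚ (aeval ϑ p)) = (aeval M (p.map φ)).det := by
    rw [Algebra.norm_eq_matrix_det h.basis, ← aeval_MM, ← hae, RingHom.map_det]
    rfl
  have hf : aeval M (ff F A B) = 0 := by
    rw [← ff_map φ, ← hae, ← charpoly_MM h, Matrix.aeval_self_charpoly]
    simp
  have hdvd : ∀ r : F[X], ff F A B ∣ r → aeval M r = 0 := by
    rintro r ⟨s, rfl⟩
    rw [map_mul, hf, zero_mul]
  rw [hdet]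
  rcases H with ⟨g, hg⟩ | ⟨x, y, hy, hxy, g, hg⟩
  · have h1 := hdvd _ hg
    rw [map_sub, sub_eq_zero, map_pow] at h1
    rw [h1, Matrix.det_pow]
    exact ⟨_, sq _⟩
  · have h1 := hdvd _ hg
    rw [map_sub, sub_eq_zero, map_pow, map_mul] at h1
    have h2 := congrArg Matrix.det h1
    rw [Matrix.det_mul, Matrix.det_pow] at h2
    have h3 : (aeval M (C x - X : F[X])).det = y ^ 2 := by
      rw [map_sub, aeval_C, aeval_X]
      have h4 := Matrix.eval_charpoly M x
      rw [hM, Matrix.charpoly_map, charpoly_MM, ff_map] at h4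
      have h5 : (ff F A B).eval x = y ^ 2 := by
        rw [hxy]; simp [ff]
      rw [← h5, h4]
      rfl
    rw [h3] at h2
    refine ⟨(aeval M g).det / y, ?_⟩
    field_simp
    linear_combination h2

end norm

theorem nq : Pool.Agent.H458.AR.S_NQ := by
  intro L _ _ A B ϑ h α hα
  obtain ⟨p, hp⟩ := h.exists_poly α
  apply isSquare_of_local
  · have := sq_of_PL h ℝ p (hα.real p hp)
    rw [hp] at this
    simpa using this
  · intro q _
    have := sq_of_PL h ℚ_[q] p (hα.fin q p hp)
    rw [hp] at this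
    simpa using this

end Pool.Agent.H596.AR458
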